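import Pool.Agent.U566.BMDeep2

/-!
# The Breuil–Mézard conjecture for `GL_2(K)`: arithmetic progressions

`S` is the set of embeddings `K → E`, `q = p^f` the size of the residue field `k` of `K`,
`j : S → ZMod f` records the embedding of `k` induced by `σ ∈ S`, and `s` chooses an element of `S`
above each embedding of `k`.  `T` is the set of inertial types and `θ τ` the Brauer character of the
reduction of `σ(τ)`.  `Z τ μ` is the multiplicity `e(R^{λ,τ}/π)` with labelled Hodge–Tate weights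
`μ = (λ_1 + 1, λ_2)` (regular); the values at other tuples play no role.  The Serre weight
`a = (r, c)` has the Brauer character of the algebraic representation with weights `htOf a`.
-/

namespace Pool.Agent.Results.MP_39033f_nt.ArithmeticProgressions

open U566.BM

/-- Non-negative integers `Y a` with the Breuil–Mézard identities for all pairs `(λ, τ)` exist if
and only if they exist for all pairs with all gaps at least `C` and, for each type, each pair of
regular weights and each embedding `σ`, the multiplicities form an arithmetic progression when the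
larger weight at `σ` is raised in steps of `q^2 - 1`.  The same integers serve. -/
theorem result (p f : ℕ) [Fact p.Prime] [NeZero f] {S : Type} [Fintype S] [DecidableEq S]
    (j : S → ZMod f) (s : ZMod f → S) (hs : ∀ k, j (s k) = k)
    {T : Type} (θ : T → (Cls p f 2 → WittVector p (AlgebraicClosure (ZMod p))))
    (n : SW p f → Reg S 2 → T → ℤ) (hn : IsMult p f j s θ n) (Z : T → Wt S 2 → ℤ) (C : ℕ) :
    ((∃ Y : SW p f → ℕ, ∀ (μ : Reg S 2) (τ : T), Z τ μ.1 = ∑ a, n a μ τ * (Y a : ℤ)) ↔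
      (∃ Y : SW p f → ℕ, ∀ μ : Reg S 2, (∀ σ, (C : ℤ) ≤ μ.1 σ 0 - μ.1 σ 1) → ∀ τ : T,
        Z τ μ.1 = ∑ a, n a μ τ * (Y a : ℤ)) ∧ Arith ((p ^ f) ^ 2 - 1) Z) ∧
    ∀ Y : SW p f → ℤ, (∀ (μ : Reg S 2) (τ : T), Z τ μ.1 = ∑ a, n a μ τ * Y a) ↔
      (∀ μ : Reg S 2, (∀ σ, (C : ℤ) ≤ μ.1 σ 0 - μ.1 σ 1) → ∀ τ : T,
        Z τ μ.1 = ∑ a, n a μ τ * Y a) ∧ Arith ((p ^ f) ^ 2 - 1) Z := by
  have key : ∀ Y : SW p f → ℤ, (∀ (μ : Reg S 2) (τ : T), Z τ μ.1 = ∑ a, n a μ τ * Y a) ↔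
      (∀ μ : Reg S 2, (∀ σ, (C : ℤ) ≤ μ.1 σ 0 - μ.1 σ 1) → ∀ τ : T,
        Z τ μ.1 = ∑ a, n a μ τ * Y a) ∧ Arith ((p ^ f) ^ 2 - 1) Z :=
    fun Y => by simpa only [smul_eq_mul] using gl2_deep_iff hs hn (Z := Z) C Y
  refine ⟨⟨?_, ?_⟩, key⟩
  · rintro ⟨Y, hY⟩
    obtain ⟨h1, h2⟩ := (key fun k => (Y k : ℤ)).1 hY
    exact ⟨⟨Y, h1⟩, h2⟩
  · rintro ⟨⟨Y, hY⟩, h2⟩
    exact ⟨Y, (key fun k => (Y k : ℤ)).2 ⟨hY, h2⟩⟩

end Pool.Agent.Results.MP_39033f_nt.ArithmeticProgressions
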