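import Pool.Agent.U566.BMMix

/-!
# The Breuil–Mézard conjecture for `GL_2(K)`: growth of the multiplicities

`S` is the set of embeddings `K → E`, `q = p^f` the size of the residue field `k` of `K`,
`j : S → ZMod f` records the embedding of `k` induced by `σ ∈ S`, and `s` chooses an element of `S`
above each embedding of `k`.  `T` is the set of inertial types; `D` records for each type the Brauer
character `θ τ` of the reduction of `σ(τ)`, the dimension of `σ(τ)` and its central character on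
`F_q^×`.  `Z τ μ` is the multiplicity `e(R^{λ,τ}/π)` with labelled Hodge–Tate weights
`μ = (λ_1 + 1, λ_2)` (regular); the values at other tuples play no role.  The Serre weight
`a = (r, c)` has the Brauer character of the algebraic representation with weights `htOf a`.
-/

namespace Pool.Agent.Results.MP_39033f_nt.EqualGrowth

open U566.BM

/-- Let `N = q^2 - 1`.  (1) If all integral relations between the reductions for pairs `(λ, τ)` hold
between the multiplicities, then for any two pairs with the same central character on `F_q^×` the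
mixed differences of the multiplicities over all embeddings, with steps `N` of the larger weights,
are proportional to the dimensions of the `σ(τ)`.  (2) The relations between the pairs with
`μ_{σ,1} = μ_{σ,2}` modulo `N` for all `σ` hold if and only if for any two such pairs with the same
central character the multiplicities are proportional to `dim σ(τ) ∏_σ (μ_{σ,1} - μ_{σ,2})`.
(3) Both proportionalities hold if integers `Y a` satisfy all identities of the conjecture. -/
theorem result (p f : ℕ) [Fact p.Prime] [NeZero f] {S : Type} [Fintype S] [DecidableEq S]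
    (j : S → ZMod f) (s : ZMod f → S) (hs : ∀ k, j (s k) = k)
    {T : Type} (D : TypeChars p f 2 T) (Z : T → Wt S 2 → ℤ) :
    (PairRelations p f j D.θ Z → ∀ (μ μ' : Reg S 2) (τ τ' : T),
      wtChar p f j μ.1 * D.ω τ = wtChar p f j μ'.1 * D.ω τ' →
      (D.deg τ' : ℤ) * mixD ((p ^ f) ^ 2 - 1) (Z τ) μ.1
        = (D.deg τ : ℤ) * mixD ((p ^ f) ^ 2 - 1) (Z τ') μ'.1) ∧
    (CongRelations p f j ((p ^ f) ^ 2 - 1) D.θ Z ↔
      ∀ (μ μ' : Reg S 2), CongN ((p ^ f) ^ 2 - 1) μ.1 → CongN ((p ^ f) ^ 2 - 1) μ'.1 →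
        ∀ τ τ' : T, wtChar p f j μ.1 * D.ω τ = wtChar p f j μ'.1 * D.ω τ' →
        ((D.deg τ' : ℤ) * ∏ σ, (μ'.1 σ 0 - μ'.1 σ 1)) * Z τ μ.1
          = ((D.deg τ : ℤ) * ∏ σ, (μ.1 σ 0 - μ.1 σ 1)) * Z τ' μ'.1) ∧
    ∀ n : SW p f → Reg S 2 → T → ℤ, IsMult p f j s D.θ n → ∀ Y : SW p f → ℤ,
      (∀ (μ : Reg S 2) (τ : T), Z τ μ.1 = ∑ a, n a μ τ * Y a) →
      ∀ (μ μ' : Reg S 2) (τ τ' : T), wtChar p f j μ.1 * D.ω τ = wtChar p f j μ'.1 * D.ω τ' →
        (D.deg τ' : ℤ) * mixD ((p ^ f) ^ 2 - 1) (Z τ) μ.1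
          = (D.deg τ : ℤ) * mixD ((p ^ f) ^ 2 - 1) (Z τ') μ'.1 ∧
        (CongN ((p ^ f) ^ 2 - 1) μ.1 → CongN ((p ^ f) ^ 2 - 1) μ'.1 →
          ((D.deg τ' : ℤ) * ∏ σ, (μ'.1 σ 0 - μ'.1 σ 1)) * Z τ μ.1
            = ((D.deg τ : ℤ) * ∏ σ, (μ.1 σ 0 - μ.1 σ 1)) * Z τ' μ'.1) := by
  have hS : Nonempty S := ⟨s 0⟩
  have hpd : ∀ μ : Wt S 2, prodDiff μ = ∏ σ, (μ σ 0 - μ σ 1) := by
    intro μ
    unfold prodDiff
    refine Finset.prod_congr rfl fun σ _ => ?_
    rw [Fin.prod_univ_two, show Finset.Ioi (0 : Fin 2) = {1} from rfl,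
      show Finset.Ioi (1 : Fin 2) = ∅ from rfl, Finset.prod_singleton, Finset.prod_empty, mul_one]
  have key1 : PairRelations p f j D.θ Z → ∀ (μ μ' : Reg S 2) (τ τ' : T),
      wtChar p f j μ.1 * D.ω τ = wtChar p f j μ'.1 * D.ω τ' →
      (D.deg τ' : ℤ) * mixD ((p ^ f) ^ 2 - 1) (Z τ) μ.1
        = (D.deg τ : ℤ) * mixD ((p ^ f) ^ 2 - 1) (Z τ') μ'.1 := by
    intro h μ μ' τ τ' e
    have := mix_law D h μ μ' τ τ' e
    simpa only [smul_eq_mul] using this
  have key2 := cong_iff (S := S) (j := j) D (by norm_num : 0 < 2) (hN2 p f) Z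
  simp only [smul_eq_mul, hpd] at key2
  refine ⟨key1, key2, fun n hn Y hY μ μ' τ τ' e => ⟨key1 ?_ μ μ' τ τ' e, fun h1 h2 => ?_⟩⟩
  · intro c hc
    exact rel_of_identities (indep_SW hs)
      (fun x : Reg S 2 × T => brauer p f j x.1.1 * D.θ x.2) (fun a x => n a x.1 x.2)
      (fun x => hn x.1 x.2) Y (fun x : Reg S 2 × T => Z x.2 x.1.1)
      (fun x => by simpa only [smul_eq_mul] using hY x.1 x.2) c hc
  · exact key2.1 (cong_of_identities (indep_SW hs) n hn Y
      (fun μ _ τ => by simpa only [smul_eq_mul] using hY μ τ)) μ μ' h1 h2 τ τ' e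

end Pool.Agent.Results.MP_39033f_nt.EqualGrowth
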