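import Pool.Agent.U566.BMGL2b

/-!
# The Breuil–Mézard conjecture for `GL_2(K)` as a system of four-term equations

`S` is the set of embeddings `K → E`, `q = p^f` the size of the residue field `k` of `K`,
`j : S → ZMod f` records the embedding of `k` induced by `σ ∈ S`, and `s` chooses an element of `S`
above each embedding of `k`.  `T` is the set of inertial types, `t0` the trivial one, and `θ τ` the
Brauer character of the reduction of `σ(τ)`.  `Z τ μ` is the multiplicity `e(R^{λ,τ}/π)` with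
labelled Hodge–Tate weights `μ = (λ_1 + 1, λ_2)` for `μ` regular, extended to all integer tuples `μ`
by the sign rule `IsAlt`.  The Serre weight `a = (r, c)` has the Brauer character of the algebraic
representation with Hodge–Tate weights `htOf a`.
-/

namespace Pool.Agent.Results.MP_39033f_nt.FourTermEquations

open U566.BM

theorem result (p f : ℕ) [Fact p.Prime] [NeZero f] {S : Type} [Fintype S] [DecidableEq S]
    (j : S → ZMod f) (s : ZMod f → S) (hs : ∀ k, j (s k) = k)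
    {T : Type} (t0 : T) (θ : T → (Cls p f 2 → WittVector p (AlgebraicClosure (ZMod p))))
    (ht : θ t0 = 1) (n : SW p f → Reg S 2 → T → ℤ) (hn : IsMult p f j s θ n)
    (Z : T → Wt S 2 → ℤ) (hZ : ∀ τ, IsAlt (Z τ)) (hpos : ∀ μ : Reg S 2, 0 ≤ Z t0 μ.1) :
    ((∃ Y : SW p f → ℕ, ∀ (μ : Reg S 2) (τ : T), Z τ μ.1 = ∑ a, n a μ τ * (Y a : ℤ)) ↔
      (∀ τ, TwistK p j (Z τ)) ∧ (∀ τ, FourTermEqs p j s (Z τ)) ∧
      ∀ (τ : T) (a : SW p f),
        Z τ (htOf j s a) = ∑ b, n b (regOf j s a) τ * Z t0 (htOf j s b)) ∧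
    ∀ Y : SW p f → ℤ, (∀ (μ : Reg S 2) (τ : T), Z τ μ.1 = ∑ a, n a μ τ * Y a) →
      ∀ a, Y a = Z t0 (htOf j s a) := by
  refine ⟨⟨?_, ?_⟩, ?_⟩
  · rintro ⟨Y, hY⟩
    obtain ⟨Y', hY'⟩ : ∃ Y' : SW p f → ℤ, ∀ a, Y' a = (Y a : ℤ) := ⟨fun a => (Y a : ℤ), fun _ => rfl⟩
    have h1 : ∀ (μ : Reg S 2) (τ : T), Z τ μ.1 = ∑ a, n a μ τ • Y' a := by
      intro μ τ
      rw [hY μ τ]
      refine Finset.sum_congr rfl fun a _ => ?_
      rw [hY', smul_eq_mul]
    have hf := gl2_forced hs hn ht Y' h1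
    refine ⟨gl2_twist hs hn hZ Y' h1, ?_, ?_⟩
    · rintro τ μ ⟨σ, hσ⟩
      exact ⟨σ, hσ, gl2_four hs hn hZ Y' h1 τ μ.1 σ⟩
    · intro τ a
      have h := h1 (regOf j s a) τ
      change Z τ (htOf j s a) = _ at h
      rw [h]
      refine Finset.sum_congr rfl fun b _ => ?_
      rw [hf b, smul_eq_mul]
  · rintro ⟨hT, hE, hB⟩
    have h0 : ∀ a : SW p f, 0 ≤ Z t0 (htOf j s a) := fun a => hpos (regOf j s a)
    refine ⟨fun a => (Z t0 (htOf j s a)).toNat, fun μ τ => ?_⟩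
    have hB' : ∀ (τ : T) (a : SW p f), Z τ (htOf j s a)
        = ∑ b, n b (regOf j s a) τ • (fun a : SW p f => Z t0 (htOf j s a)) b :=
      fun τ a => by simpa [smul_eq_mul] using hB τ a
    have h := gl2_imp hs hn hZ hT hE (fun a : SW p f => Z t0 (htOf j s a)) hB' μ τ
    rw [h]
    refine Finset.sum_congr rfl fun a _ => ?_
    rw [Int.toNat_of_nonneg (h0 a), smul_eq_mul]
  · intro Y hY a
    exact gl2_forced hs hn ht Y (fun μ τ => by simpa [smul_eq_mul] using hY μ τ) a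

end Pool.Agent.Results.MP_39033f_nt.FourTermEquations
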