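import Pool.Agent.U566.BMRefl

/-!
# The Breuil–Mézard conjecture for `GL_2(K)`: sums over reflections

`S` is the set of embeddings `K → E`, `q = p^f` the size of the residue field `k` of `K`,
`j : S → ZMod f` records the embedding of `k` induced by `σ ∈ S`, and `s` chooses an element of `S`
above each embedding of `k`.  `T` is the set of inertial types; `D` records for each type the Brauer
character `θ τ` of the reduction of `σ(τ)`, the dimension of `σ(τ)` and its central character on
`F_q^×`.  `Z τ μ` is the multiplicity `e(R^{λ,τ}/π)` with labelled Hodge–Tate weights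
`μ = (λ_1 + 1, λ_2)` (regular); the values at other tuples play no role.  The Serre weight
`a = (r, c)` has the Brauer character of the algebraic representation with weights `htOf a`.
-/

namespace Pool.Agent.Results.MP_39033f_nt.ReflectionSums

open U566.BM

/-- Let `N = q^2 - 1`.  If all integral relations between the reductions for pairs `(λ, τ)` hold
between the multiplicities, in particular if integers `Y a` satisfy all identities of the
conjecture, then for regular tuples `μ` with all gaps smaller than `N` the sums of the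
multiplicities over all tuples obtained from `μ` by replacing `(μ_{σ,1}, μ_{σ,2})` by
`(μ_{σ,2} + N, μ_{σ,1})` at some embeddings are proportional to the dimensions of the `σ(τ)`: for
any two pairs with the same central character on `F_q^×` the factor is the same. -/
theorem result (p f : ℕ) [Fact p.Prime] [NeZero f] {S : Type} [Fintype S] [DecidableEq S]
    (j : S → ZMod f) (s : ZMod f → S) (hs : ∀ k, j (s k) = k)
    {T : Type} (D : TypeChars p f 2 T) (Z : T → Wt S 2 → ℤ) :
    (PairRelations p f j D.θ Z → ∀ μ μ' : Wt S 2, SmallGaps ((p ^ f) ^ 2 - 1) μ →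
      SmallGaps ((p ^ f) ^ 2 - 1) μ' → ∀ τ τ' : T,
      wtChar p f j μ * D.ω τ = wtChar p f j μ' * D.ω τ' →
      (D.deg τ' : ℤ) * reflSum ((p ^ f) ^ 2 - 1) (Z τ) μ
        = (D.deg τ : ℤ) * reflSum ((p ^ f) ^ 2 - 1) (Z τ') μ') ∧
    ∀ n : SW p f → Reg S 2 → T → ℤ, IsMult p f j s D.θ n → ∀ Y : SW p f → ℤ,
      (∀ (μ : Reg S 2) (τ : T), Z τ μ.1 = ∑ a, n a μ τ * Y a) →
      ∀ μ μ' : Wt S 2, SmallGaps ((p ^ f) ^ 2 - 1) μ → SmallGaps ((p ^ f) ^ 2 - 1) μ' →
        ∀ τ τ' : T, wtChar p f j μ * D.ω τ = wtChar p f j μ' * D.ω τ' →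
        (D.deg τ' : ℤ) * reflSum ((p ^ f) ^ 2 - 1) (Z τ) μ
          = (D.deg τ : ℤ) * reflSum ((p ^ f) ^ 2 - 1) (Z τ') μ' := by
  have hS : Nonempty S := ⟨s 0⟩
  have key : PairRelations p f j D.θ Z → ∀ μ μ' : Wt S 2, SmallGaps ((p ^ f) ^ 2 - 1) μ →
      SmallGaps ((p ^ f) ^ 2 - 1) μ' → ∀ τ τ' : T,
      wtChar p f j μ * D.ω τ = wtChar p f j μ' * D.ω τ' →
      (D.deg τ' : ℤ) * reflSum ((p ^ f) ^ 2 - 1) (Z τ) μ
        = (D.deg τ : ℤ) * reflSum ((p ^ f) ^ 2 - 1) (Z τ') μ' := by
    intro h μ μ' h1 h2 τ τ' e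
    simpa only [smul_eq_mul] using refl_law D h h1 h2 τ τ' e
  refine ⟨key, fun n hn Y hY => key ?_⟩
  intro c hc
  exact rel_of_identities (indep_SW hs)
    (fun x : Reg S 2 × T => brauer p f j x.1.1 * D.θ x.2) (fun a x => n a x.1 x.2)
    (fun x => hn x.1 x.2) Y (fun x : Reg S 2 × T => Z x.2 x.1.1)
    (fun x => by simpa only [smul_eq_mul] using hY x.1 x.2) c hc

end Pool.Agent.Results.MP_39033f_nt.ReflectionSums
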